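import Pool.Agent.Results.MP_821da1_nt.AllPlaneCurves
import Pool.Agent.H322R2.Red2

/-!
A plane curve with a vertical asymptote has two places at infinity, hence a bound for its integer
points that is polynomial in the coefficients.
-/

open Polynomial

set_option autoImplicit false

namespace Pool.Agent.V8H28.DV

open Pool.Agent.H322R2 Pool.Agent.Results.MP_821da1_nt.AllPlaneCurves

/-- an element that is not integral lies outside a valuation ring -/
lemma exists_val {R L : Type*} [CommRing R] [Field L] (φ : R →+* L) (z : L)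
    (h : ∀ W : R[X], W.Monic → eval₂ φ z W ≠ 0) :
    ∃ V : ValuationSubring L, (∀ r, φ r ∈ V) ∧ z ∉ V := by
  by_contra hcon
  push Not at hcon
  have h1 : z ∈ (⨅ V : {V : ValuationSubring L // (Set.range φ) ⊆ V.toSubring},
      V.1.toSubring) := by
    rw [Subring.mem_iInf]
    rintro ⟨V, hV⟩
    exact hcon V (fun r => hV ⟨r, rfl⟩)
  rw [iInf_valuationSubring_superset] at h1
  have h2 : IsIntegral (Subring.closure (Set.range φ)) z := h1
  obtain ⟨p, hp, hpz⟩ := h2
  obtain ⟨ψ, hψ⟩ : ∃ ψ : R →+* Subring.closure (Set.range φ), ∀ r, ((ψ r : _) : L) = φ r :=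
    ⟨φ.codRestrict _ (fun r => Subring.subset_closure ⟨r, rfl⟩), fun r => rfl⟩
  have hsurj : Function.Surjective ψ := by
    rintro ⟨w, hw⟩
    have e : Subring.closure (Set.range φ) = φ.range := by
      rw [← RingHom.coe_range, Subring.closure_eq]
    rw [e] at hw
    obtain ⟨r, hr⟩ := hw
    exact ⟨r, Subtype.ext (by rw [hψ]; exact hr)⟩
  have hl : p ∈ Polynomial.lifts ψ := by
    rw [Polynomial.lifts_iff_coeff_lifts]
    intro n
    exact hsurj _
  obtain ⟨q, hq, -, hqm⟩ := Polynomial.lifts_and_natDegree_eq_and_monic hl hp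
  apply h q hqm
  rw [← hpz, ← hq, eval₂_map]
  congr 1
  ext r
  exact (hψ r).symm

theorem bound_of_asymptote : ∃ K : ℕ → ℕ, ∀ F : MvPolynomial (Fin 2) ℤ,
    Irreducible (MvPolynomial.map (Int.castRingHom ℚ) F) →
    1 ≤ (toB ℤ F).natDegree → 1 ≤ ((toB ℤ F).leadingCoeff).natDegree →
    ∀ x y : ℤ, MvPolynomial.eval ![x, y] F = 0 →
      x.natAbs ≤ (K F.totalDegree * len F) ^ K F.totalDegree ∧
        y.natAbs ≤ (K F.totalDegree * len F) ^ K F.totalDegree := by
  obtain ⟨K, c, hC⟩ := Results.MP_821da1_nt.AllPlaneCurves.result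
  refine ⟨K, ?_⟩
  intro F hirr hdeg hlead x y hxy
  have hprime : (Ideal.span {MvPolynomial.map (Int.castRingHom ℚ) F}).IsPrime :=
    (Ideal.span_singleton_prime hirr.ne_zero).2 hirr.prime
  have hdom : IsDomain (CoordRing F) := Ideal.Quotient.isDomain _
  rcases hC F hirr (FractionRing (CoordRing F)) x y hxy with h | ⟨A, hA, -⟩
  · exact h
  exfalso
  obtain ⟨π, hπ⟩ : ∃ π : MvPolynomial (Fin 2) ℚ →+* FractionRing (CoordRing F), ∀ w, π w
      = algebraMap (CoordRing F) (FractionRing (CoordRing F)) (Ideal.Quotient.mk _ w) :=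
    ⟨(algebraMap (CoordRing F) (FractionRing (CoordRing F))).comp (Ideal.Quotient.mk _),
      fun w => rfl⟩
  have hker : ∀ w, π w = 0 ↔ MvPolynomial.map (Int.castRingHom ℚ) F ∣ w := by
    intro w
    rw [hπ, IsFractionRing.to_map_eq_zero_iff, Ideal.Quotient.eq_zero_iff_mem,
      Ideal.mem_span_singleton]
  -- the kernel in terms of polynomials in one variable over `ℚ[X]`
  have hB : toB ℚ (MvPolynomial.map (Int.castRingHom ℚ) F)
      = (toB ℤ F).map (mapRingHom (Int.castRingHom ℚ)) := toB_map ℤ (Int.castRingHom ℚ) F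
  have hinj : Function.Injective (mapRingHom (Int.castRingHom ℚ)) :=
    Polynomial.map_injective _ (RingHom.injective_int _)
  have hBdeg : (toB ℚ (MvPolynomial.map (Int.castRingHom ℚ) F)).natDegree
      = (toB ℤ F).natDegree := by
    rw [hB, natDegree_map_eq_of_injective hinj]
  have hBlead : (toB ℚ (MvPolynomial.map (Int.castRingHom ℚ) F)).leadingCoeff
      = ((toB ℤ F).leadingCoeff).map (Int.castRingHom ℚ) := by
    rw [hB, leadingCoeff_map_of_injective hinj]
    rfl
  have hker2 : ∀ W : ℚ[X][X], π ((toB ℚ).symm W) = 0 ↔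
      toB ℚ (MvPolynomial.map (Int.castRingHom ℚ) F) ∣ W := by
    intro W
    rw [hker]
    constructor
    · intro h
      have h1 := _root_.map_dvd (toB ℚ) h
      rwa [AlgEquiv.apply_symm_apply] at h1
    · intro h
      have h1 := _root_.map_dvd (toB ℚ).symm h
      rwa [AlgEquiv.symm_apply_apply] at h1
  have hev : ∀ W : ℚ[X][X], π ((toB ℚ).symm W)
      = eval₂ (π.comp (((toB ℚ).symm : ℚ[X][X] →+* MvPolynomial (Fin 2) ℚ).comp C))
        (π (MvPolynomial.X 0)) W := by
    intro W
    have h1 : (π.comp ((toB ℚ).symm : ℚ[X][X] →+* MvPolynomial (Fin 2) ℚ))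
        = eval₂RingHom (π.comp (((toB ℚ).symm : ℚ[X][X] →+* MvPolynomial (Fin 2) ℚ).comp C))
          (π (MvPolynomial.X 0)) := by
      apply Polynomial.ringHom_ext
      · intro p
        rw [coe_eval₂RingHom, eval₂_C]
        rfl
      · rw [coe_eval₂RingHom, eval₂_X]
        have h2 : (toB ℚ).symm (X : ℚ[X][X]) = MvPolynomial.X 0 := by
          rw [AlgEquiv.symm_apply_eq, toB_X0]
        rw [RingHom.comp_apply]
        exact congrArg π h2
    exact congrArg (fun g : ℚ[X][X] →+* FractionRing (CoordRing F) => g W) h1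
  -- first valuation: `y` is infinite
  have hα : ∀ p : ℚ[X], p ≠ 0 → π ((toB ℚ).symm (C p)) ≠ 0 := by
    intro p hp h
    rw [hker2] at h
    have h1 := natDegree_le_of_dvd h (by rwa [Ne, C_eq_zero])
    rw [natDegree_C, hBdeg] at h1
    omega
  obtain ⟨V1, hV1, hV1'⟩ := exists_val (π.comp MvPolynomial.C) (π (MvPolynomial.X 1)) (by
    intro W hW h
    apply hα W hW.ne_zero
    rw [← h]
    have h1 : (π.comp (((toB ℚ).symm : ℚ[X][X] →+* MvPolynomial (Fin 2) ℚ).comp C))
        = eval₂RingHom (π.comp MvPolynomial.C) (π (MvPolynomial.X 1)) := by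
      apply Polynomial.ringHom_ext
      · intro q
        rw [coe_eval₂RingHom, eval₂_C]
        have h2 : (toB ℚ).symm (C (C q) : ℚ[X][X]) = MvPolynomial.C q := by
          rw [AlgEquiv.symm_apply_eq, toB_C]
        exact congrArg π h2
      · rw [coe_eval₂RingHom, eval₂_X]
        have h2 : (toB ℚ).symm (C X : ℚ[X][X]) = MvPolynomial.X 1 := by
          rw [AlgEquiv.symm_apply_eq, toB_X1]
        exact congrArg π h2
    exact congrArg (fun g : ℚ[X] →+* FractionRing (CoordRing F) => g W) h1)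
  -- second valuation: `y` is finite and `x` is infinite
  obtain ⟨V2, hV2, hV2'⟩ := exists_val
    (π.comp (((toB ℚ).symm : ℚ[X][X] →+* MvPolynomial (Fin 2) ℚ).comp C))
    (π (MvPolynomial.X 0)) (by
    intro W hW h
    rw [← hev, hker2] at h
    obtain ⟨U, hU⟩ := h
    have h1 := hW.leadingCoeff
    rw [hU, leadingCoeff_mul, hBlead] at h1
    have h2 : IsUnit (((toB ℤ F).leadingCoeff).map (Int.castRingHom ℚ)) :=
      IsUnit.of_mul_eq_one _ h1
    have h3 := natDegree_eq_zero_of_isUnit h2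
    rw [natDegree_map_eq_of_injective (RingHom.injective_int _)] at h3
    omega)
  have hq : ∀ q : ℚ, algebraMap (CoordRing F) (FractionRing (CoordRing F))
      (algebraMap ℚ (CoordRing F) q) = π (MvPolynomial.C q) := by
    intro q
    rw [hπ]
    rfl
  have hA1 : V1 = A := by
    rw [← hA V1]
    refine ⟨fun q => ?_, 1, ?_⟩
    · rw [hq]; exact hV1 q
    · rw [← hπ]; exact hV1'
  have hA2 : V2 = A := by
    rw [← hA V2]
    refine ⟨fun q => ?_, 0, ?_⟩
    · rw [hq]
      have h1 := hV2 (C q)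
      have h2 : (toB ℚ).symm (C (C q) : ℚ[X][X]) = MvPolynomial.C q := by
        rw [AlgEquiv.symm_apply_eq, toB_C]
      rw [← h2]
      exact h1
    · rw [← hπ]; exact hV2'
  apply hV1'
  rw [hA1, ← hA2]
  have h1 := hV2 X
  have h2 : (toB ℚ).symm (C X : ℚ[X][X]) = MvPolynomial.X 1 := by
    rw [AlgEquiv.symm_apply_eq, toB_X1]
  rw [← h2]
  exact h1

end Pool.Agent.V8H28.DV
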