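import Pool.Agent.V8H28.DV.Irr
import Pool.Agent.V8H28.DV.Two

/-!
Integer points of plane curves at which one polynomial divides another.
-/

open Polynomial

set_option autoImplicit false

namespace Pool.Agent.V8H28.DV

open Pool.Agent.H322R2

section PB

lemma pb_mono {a b E : ℕ} (h : a ≤ b) (hE : 1 ≤ E) : (a * E) ^ a ≤ (b * E) ^ b := by
  rcases Nat.eq_zero_or_pos b with hb | hb
  · have ha : a = 0 := by omega
    rw [ha, hb]
  · have h1 : 1 ≤ b * E := Nat.mul_pos hb hE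
    exact (Nat.pow_le_pow_left (Nat.mul_le_mul_right _ h) _).trans (Nat.pow_le_pow_right h1 h)

lemma pb_mul {a b E X Y : ℕ} (hX : X ≤ (a * E) ^ a) (hY : Y ≤ (b * E) ^ b) :
    X * Y ≤ ((a + b) * E) ^ (a + b) := by
  rw [pow_add]
  apply Nat.mul_le_mul
  · exact hX.trans (Nat.pow_le_pow_left (Nat.mul_le_mul_right _ (by omega)) _)
  · exact hY.trans (Nat.pow_le_pow_left (Nat.mul_le_mul_right _ (by omega)) _)

lemma pb_pow {a E X : ℕ} (hX : X ≤ (a * E) ^ a) (n : ℕ) : X ^ n ≤ (a * n * E) ^ (a * n) := by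
  rcases Nat.eq_zero_or_pos n with hn | hn
  · subst hn
    simp
  · refine (Nat.pow_le_pow_left hX n).trans ?_
    rw [← pow_mul]
    apply Nat.pow_le_pow_left
    apply Nat.mul_le_mul_right
    exact Nat.le_mul_of_pos_right _ hn

lemma pb_const {E : ℕ} (hE : 1 ≤ E) (c : ℕ) : c ≤ (c * E) ^ c := by
  rcases Nat.eq_zero_or_pos c with hc | hc
  · subst hc
    simp
  · exact (Nat.le_mul_of_pos_right _ hE).trans (Nat.le_self_pow (by omega) _)

/-- polynomially bounded -/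
def PB (f : ℕ → ℕ) : Prop := ∃ C : ℕ, ∀ E : ℕ, 1 ≤ E → f E ≤ (C * E) ^ C

lemma PB.mul {f g : ℕ → ℕ} (hf : PB f) (hg : PB g) : PB (fun E => f E * g E) := by
  obtain ⟨a, ha⟩ := hf
  obtain ⟨b, hb⟩ := hg
  exact ⟨a + b, fun E hE => pb_mul (ha E hE) (hb E hE)⟩

lemma PB.pow {f : ℕ → ℕ} (hf : PB f) (n : ℕ) : PB (fun E => f E ^ n) := by
  obtain ⟨a, ha⟩ := hf
  exact ⟨a * n, fun E hE => pb_pow (ha E hE) n⟩

lemma PB.const (c : ℕ) : PB (fun _ => c) := ⟨c, fun _ hE => pb_const hE c⟩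

lemma PB.id : PB (fun E => E) := ⟨1, fun E _ => by simp⟩

lemma PB.mono {f g : ℕ → ℕ} (hf : PB f) (h : ∀ E, 1 ≤ E → g E ≤ f E) : PB g := by
  obtain ⟨a, ha⟩ := hf
  exact ⟨a, fun E hE => (h E hE).trans (ha E hE)⟩

end PB

lemma ev_sh {S : Type*} [CommRing S] (u : ℕ) (x y : S) (P : MvPolynomial (Fin 2) ℤ) :
    ev (y - u * x) x (toB ℤ (shE ℤ u P)) = MvPolynomial.aeval ![x, y] P := by
  rw [ev_toB]
  have h1 : (MvPolynomial.eval₂Hom (Int.castRingHom S) ![x, y - u * x]).comp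
      (shE ℤ (u : ℤ) : MvPolynomial (Fin 2) ℤ →+* MvPolynomial (Fin 2) ℤ)
      = (MvPolynomial.aeval ![x, y] : MvPolynomial (Fin 2) ℤ →ₐ[ℤ] S).toRingHom := by
    apply MvPolynomial.ringHom_ext
    · intro r
      simp
    · intro i
      fin_cases i
      · simp [shE_apply]
      · simp [shE_apply]
  exact congrArg (fun g : MvPolynomial (Fin 2) ℤ →+* S => g P) h1

lemma ev_GG' {S : Type*} [CommRing S] {F : MvPolynomial (Fin 2) ℤ} {u : ℕ} (hc : lc F u ≠ 0)
    (hd : 1 ≤ F.totalDegree) (a b : S) :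
    ev a ((lc F u : ℤ) * b) (GG F u) = ((lc F u : ℤ) : S) ^ (F.totalDegree - 1) *
      ev a b (F2 F u) := by
  have h1 := integralNormalization_eval₂_leadingCoeff_mul (p := F2 F u)
    (by rw [F2_natDegree hc]; exact hd) (evf a) b
  rw [F2_leadingCoeff hc, evf_C, F2_natDegree hc] at h1
  simpa [ev_apply, GG] using h1

lemma aeval_int (x y : ℤ) (P : MvPolynomial (Fin 2) ℤ) :
    MvPolynomial.aeval ![x, y] P = MvPolynomial.eval ![x, y] P := by
  rw [MvPolynomial.aeval_def, MvPolynomial.eval, MvPolynomial.coe_eval₂Hom]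
  congr 1

lemma len_pos' {F : MvPolynomial (Fin 2) ℤ} (hF : F ≠ 0) : 1 ≤ len F := by
  obtain ⟨m, hm⟩ := MvPolynomial.support_nonempty.2 hF
  have h1 : 1 ≤ (F.coeff m).natAbs := by
    have := MvPolynomial.mem_support_iff.1 hm
    omega
  exact h1.trans (Finset.single_le_sum (f := fun m => (F.coeff m).natAbs)
    (fun _ _ => Nat.zero_le _) hm)

theorem main1 (d D : ℕ) (hD : 1 ≤ D) : ∃ C : ℕ, ∀ F P N : MvPolynomial (Fin 2) ℤ,
    F.totalDegree = D → P.totalDegree ≤ d → N.totalDegree ≤ d →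
    Irreducible (MvPolynomial.map (Int.castRingHom ℚ) F) →
    (∃ a b : ℂ, MvPolynomial.aeval ![a, b] F = 0 ∧ MvPolynomial.aeval ![a, b] P = 0 ∧
      MvPolynomial.aeval ![a, b] N ≠ 0) →
    ∀ x y k : ℤ, MvPolynomial.eval ![x, y] F = 0 → MvPolynomial.eval ![x, y] P ≠ 0 →
      MvPolynomial.eval ![x, y] N = k * MvPolynomial.eval ![x, y] P →
      x.natAbs ≤ (C * (len F * len P * len N)) ^ C ∧
        y.natAbs ≤ (C * (len F * len P * len N)) ^ C := by
  obtain ⟨K, hK⟩ := bound_of_asymptote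
  obtain ⟨e, he⟩ : ∃ e, e = D + D * (d + D * d) := ⟨_, rfl⟩
  obtain ⟨Ks, hKs⟩ : ∃ Ks, Ks = (∑ i ∈ Finset.range (e + 1), K i) + 1 := ⟨_, rfl⟩
  have hKi : ∀ i, i ≤ e → K i ≤ Ks := by
    intro i hi
    have := Finset.single_le_sum (f := K) (fun _ _ => Nat.zero_le _)
      (Finset.mem_range.2 (show i < e + 1 by omega))
    omega
  obtain ⟨b, hb⟩ : ∃ b, b = (1 + D) ^ D := ⟨_, rfl⟩
  obtain ⟨b', hb'⟩ : ∃ b', b' = (1 + D) ^ d := ⟨_, rfl⟩
  have hb1 : 1 ≤ b := by rw [hb]; exact Nat.one_le_pow _ _ (by omega)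
  have hb'1 : 1 ≤ b' := by rw [hb']; exact Nat.one_le_pow _ _ (by omega)
  -- the size of everything, as a function of `E`
  obtain ⟨Mf, hMf⟩ : ∃ Mf : ℕ → ℕ, ∀ E, Mf E = (D + 1) *
      ((D * (d + D * d) + 1) * (2 ^ ((D * (d + D * d) + 1) * (D + 1)) *
      (((D * (d + D * d) + 1) * (D + 1) + 1) *
      (D.factorial * (2 * ((E * b) ^ d * (E * b')) * (1 + (E * b) ^ D) ^ d) ^ D)))) :=
    ⟨_, fun E => rfl⟩
  have hnum : ∃ C : ℕ, ∀ E : ℕ, 1 ≤ E → (1 + D) * ((E * b) ^ D * (Ks * Mf E) ^ Ks)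
      ≤ (C * E) ^ C := by
    have h2 : PB (fun E => E * b) := PB.id.mul (PB.const b)
    have h2' : PB (fun E => E * b') := PB.id.mul (PB.const b')
    have h3 : PB (fun E => (E * b) ^ D) := h2.pow D
    have h5 : PB (fun E => 1 + (E * b) ^ D) := by
      refine ((PB.const 2).mul h3).mono ?_
      intro E hE
      have : 1 ≤ (E * b) ^ D := Nat.one_le_pow _ _ (Nat.mul_pos hE hb1)
      show 1 + (E * b) ^ D ≤ 2 * (E * b) ^ D
      omega
    have h8 : PB Mf := by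
      have h6 : PB (fun E => (D + 1) * ((D * (d + D * d) + 1) *
          (2 ^ ((D * (d + D * d) + 1) * (D + 1)) * (((D * (d + D * d) + 1) * (D + 1) + 1) *
          (D.factorial * (2 * ((E * b) ^ d * (E * b')) * (1 + (E * b) ^ D) ^ d) ^ D))))) :=
        (PB.const _).mul ((PB.const _).mul ((PB.const _).mul ((PB.const _).mul
          ((PB.const _).mul ((((PB.const 2).mul ((h2.pow d).mul h2')).mul (h5.pow d)).pow D)))))
      exact h6.mono fun E _ => (hMf E).le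
    exact (PB.const _).mul (h3.mul (((PB.const Ks).mul h8).pow Ks))
  obtain ⟨C, hC⟩ := hnum
  refine ⟨C, ?_⟩
  intro F P N hFD hPd hNd hirr hab x y k hF hP hN
  obtain ⟨a, b0, haF, haP, haN⟩ := hab
  have hF0 : F ≠ 0 := by
    rintro rfl
    rw [map_zero] at hirr
    exact hirr.ne_zero rfl
  have hP0 : P ≠ 0 := by
    rintro rfl
    exact hP (map_zero _)
  have hN0 : N ≠ 0 := by
    rintro rfl
    exact haN (map_zero _)
  have hlF := len_pos' hF0
  have hlP := len_pos' hP0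
  have hlN := len_pos' hN0
  obtain ⟨E, hE⟩ : ∃ E, E = len F * len P * len N := ⟨_, rfl⟩
  have hE1 : 1 ≤ E := by
    rw [hE]; exact Nat.mul_pos (Nat.mul_pos hlF hlP) hlN
  have hFE : len F ≤ E := by
    rw [hE, mul_assoc]; exact Nat.le_mul_of_pos_right _ (Nat.mul_pos hlP hlN)
  have hPE : len P ≤ E := by
    rw [hE]
    calc len P ≤ len F * len P := Nat.le_mul_of_pos_left _ hlF
      _ ≤ _ := Nat.le_mul_of_pos_right _ hlN
  have hNE : len N ≤ E := by
    rw [hE]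
    exact Nat.le_mul_of_pos_left _ (Nat.mul_pos hlF hlP)
  rw [← hE]
  obtain ⟨u, hu, hcu⟩ := exists_u F hF0
  have hcl : lc F u ≠ 0 := hcu
  have hFd1 : 1 ≤ F.totalDegree := by omega
  have huD : (u : ℝ) ≤ D := by rw [← hFD]; exact_mod_cast hu
  -- sizes
  have hEb : (1 : ℝ) ≤ (E : ℝ) * b := by
    exact_mod_cast Nat.mul_pos hE1 hb1
  have hpn2 : pn (pn zn) (F2 F u) ≤ (E : ℝ) * b := by
    refine (pn_toB_le u F).trans ?_
    rw [hFD, hb]
    push_cast
    apply mul_le_mul (by exact_mod_cast hFE) _ (by positivity) (by positivity)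
    apply pow_le_pow_left₀ (by positivity)
    linarith
  have hpnG : pn (pn zn) (GG F u) ≤ ((E : ℝ) * b) ^ D := by
    rw [← hFD]
    exact pn_GG hcl hEb hpn2 hFd1
  have hlcB : |((lc F u : ℤ) : ℝ)| ≤ (E : ℝ) * b := by
    refine le_trans ?_ hpn2
    have h1 := coeff_le_pn (pn zn) (F2 F u) F.totalDegree
    rw [F2_coeff hcl, pn_C] at h1
    exact h1
  have hW : ∀ W : MvPolynomial (Fin 2) ℤ, W.totalDegree ≤ d → len W ≤ E →
      pn (pn zn) (tl (lc F u) d (toB ℤ (shE ℤ u W))) ≤ (((E * b) ^ d * (E * b') : ℕ) : ℝ) := by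
    intro W hWd hWE
    refine (pn_tl _ _ _ _ hEb hlcB).trans ?_
    push_cast
    apply mul_le_mul_of_nonneg_left _ (by positivity)
    refine (pn_toB_le u W).trans ?_
    apply mul_le_mul (by exact_mod_cast hWE) _ (by positivity) (by positivity)
    rw [hb']
    push_cast
    calc (1 + (u : ℝ)) ^ W.totalDegree ≤ (1 + (D : ℝ)) ^ W.totalDegree := by
          apply pow_le_pow_left₀ (by positivity)
          linarith
      _ ≤ (1 + (D : ℝ)) ^ d := by
          apply pow_le_pow_right₀ _ hWd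
          have : (0 : ℝ) ≤ D := by positivity
          linarith
  -- the integer point
  have hz : ev (y - u * x) ((lc F u : ℤ) * x) (GG F u) = 0 := by
    have h1 := ev_GG' (S := ℤ) hcl hFd1 (y - u * x) x
    simp only [Int.cast_id] at h1
    rw [h1, F2, ev_sh, aeval_int, hF, mul_zero]
  have hWev : ∀ W : MvPolynomial (Fin 2) ℤ, W.totalDegree ≤ d →
      ev (y - u * x) ((lc F u : ℤ) * x) (tl (lc F u) d (toB ℤ (shE ℤ u W)))
        = (lc F u) ^ d * MvPolynomial.eval ![x, y] W := by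
    intro W hWd
    have h1 := ev_tl (S := ℤ) (lc F u) d (toB ℤ (shE ℤ u W)) ((TD_toB (u : ℤ) W).1.trans hWd)
      (y - u * x) x
    simp only [Int.cast_id] at h1
    rw [h1, ev_sh, aeval_int]
  -- the complex point
  have hzC : ev (b0 - u * a) (((lc F u : ℤ) : ℂ) * a) (GG F u) = 0 := by
    rw [ev_GG' (S := ℂ) hcl hFd1, F2, ev_sh, haF, mul_zero]
  have hWevC : ∀ W : MvPolynomial (Fin 2) ℤ, W.totalDegree ≤ d →
      ev (b0 - u * a) (((lc F u : ℤ) : ℂ) * a) (tl (lc F u) d (toB ℤ (shE ℤ u W)))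
        = ((lc F u : ℤ) : ℂ) ^ d * MvPolynomial.aeval ![a, b0] W := by
    intro W hWd
    rw [ev_tl (lc F u) d (toB ℤ (shE ℤ u W)) ((TD_toB (u : ℤ) W).1.trans hWd), ev_sh]
  have hlcC : ((lc F u : ℤ) : ℂ) ≠ 0 := by exact_mod_cast hcl
  obtain ⟨G, hGp, hG1, hG2, hG3, hG4, hG5, hG6⟩ := model (GG F u)
    (tl (lc F u) d (toB ℤ (shE ℤ u P))) (tl (lc F u) d (toB ℤ (shE ℤ u N))) D D d d
    ((E * b) ^ D) ((E * b) ^ d * (E * b')) (GG_monic hcl) (by rw [GG_natDegree hcl, hFD]) hD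
    (GG_prime hcl hFd1 hirr) (fun j => by
      rw [← hFD]; exact ((GG_TD hcl).2 j).trans (Nat.sub_le _ _))
    (natDegree_tl _ _ _) (natDegree_tl _ _ _)
    (inner_tl _ _ _ _ fun j => ((TD_toB (u : ℤ) P).2 j).trans (by omega))
    (inner_tl _ _ _ _ fun j => ((TD_toB (u : ℤ) N).2 j).trans (by omega))
    (by push_cast; exact hpnG) (hW P hPd hPE) (hW N hNd hNE) (by
      rintro ⟨W, hW'⟩
      have h1 := hWev P hPd
      rw [hW', map_mul, hz, zero_mul] at h1
      exact (mul_ne_zero (pow_ne_zero _ hcl) hP) h1.symm)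
    (b0 - u * a) (((lc F u : ℤ) : ℂ) * a) hzC (by rw [hWevC P hPd, haP, mul_zero])
    (by rw [hWevC N hNd]; exact mul_ne_zero (pow_ne_zero _ hlcC) haN)
  have hGk := hG6 (y - u * x) ((lc F u : ℤ) * x) k hz
    (by rw [hWev P hPd]; exact mul_ne_zero (pow_ne_zero _ hcl) hP)
    (by rw [hWev P hPd, hWev N hNd, hN]; ring)
  -- apply the bound for the new curve
  obtain ⟨M, hM⟩ : ∃ M : ℕ, M = Mf E := ⟨_, rfl⟩
  rw [← hMf, ← hM] at hG5
  have hCE := hC E hE1
  rw [← hM] at hCE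
  have hG0ne : (toB ℤ).symm G ≠ 0 := by
    intro h
    apply hGp.ne_zero
    have h1 := congrArg (toB ℤ) h
    rwa [AlgEquiv.apply_symm_apply, map_zero] at h1
  have hlenG : len ((toB ℤ).symm G) ≤ M := by
    have h1 := (len_symm G).trans hG5
    exact_mod_cast h1
  have hlen1 : 1 ≤ len ((toB ℤ).symm G) := len_pos' hG0ne
  have htd : ((toB ℤ).symm G).totalDegree ≤ e := by
    rw [he]
    exact totalDegree_symm G D (D * (d + D * d)) hG2 hG4
  have hlead : 1 ≤ ((toB ℤ ((toB ℤ).symm G)).leadingCoeff).natDegree := by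
    rw [AlgEquiv.apply_symm_apply]; exact hG3
  have hdeg : 1 ≤ (toB ℤ ((toB ℤ).symm G)).natDegree := by
    rw [AlgEquiv.apply_symm_apply]; exact hG1
  obtain ⟨-, hak⟩ := hK ((toB ℤ).symm G) (irr_of_prime G hGp hG1) hdeg hlead k (y - u * x)
    (by rw [eval_symm]; exact hGk)
  obtain ⟨A, hA⟩ : ∃ A, A = (Ks * M) ^ Ks := ⟨_, rfl⟩
  have hM1 : 1 ≤ M := hlen1.trans hlenG
  have hKs1 : 1 ≤ Ks := by omega
  have hA1 : 1 ≤ A := by
    rw [hA]; exact Nat.one_le_pow _ _ (Nat.mul_pos hKs1 hM1)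
  have hakA : (y - u * x).natAbs ≤ A := by
    refine hak.trans ?_
    rw [hA]
    have h1 := hKi _ htd
    refine (Nat.pow_le_pow_left (Nat.mul_le_mul h1 hlenG) _).trans ?_
    exact Nat.pow_le_pow_right (Nat.mul_pos hKs1 hM1) h1
  rw [← hA] at hCE
  have hTR : (1 : ℝ) ≤ ((E : ℝ) * b) ^ D := one_le_pow₀ hEb
  have hbb := abs_b_le (GG_monic hcl) (GG_natDegree hcl) (GG_TD hcl) hTR hpnG (y - u * x)
    ((lc F u : ℤ) * x) hz
  have hlc1 : 1 ≤ |((lc F u : ℤ) : ℝ)| := by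
    have : 1 ≤ |lc F u| := Int.one_le_abs hcl
    exact_mod_cast this
  have haR : |((y - u * x : ℤ) : ℝ)| ≤ A := by
    rw [← Int.cast_abs, ← Int.natCast_natAbs, Int.cast_natCast]
    exact_mod_cast hakA
  have hAR : (1 : ℝ) ≤ A := by exact_mod_cast hA1
  have hx : |(x : ℝ)| ≤ ((E : ℝ) * b) ^ D * A := by
    have h1 : |(x : ℝ)| ≤ |(((lc F u : ℤ) * x : ℤ) : ℝ)| := by
      push_cast
      rw [abs_mul]
      exact le_mul_of_one_le_left (abs_nonneg _) hlc1
    refine h1.trans (hbb.trans ?_)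
    exact mul_le_mul_of_nonneg_left (max_le hAR haR) (by positivity)
  have hy : |(y : ℝ)| ≤ (1 + D) * (((E : ℝ) * b) ^ D * A) := by
    have h1 : (y : ℝ) = ((y - u * x : ℤ) : ℝ) + u * x := by push_cast; ring
    rw [h1]
    refine (abs_add_le _ _).trans ?_
    rw [abs_mul, Nat.abs_cast]
    have h3 : (u : ℝ) * |(x : ℝ)| ≤ D * (((E : ℝ) * b) ^ D * A) :=
      mul_le_mul huD hx (abs_nonneg _) (by positivity)
    have h4 : (A : ℝ) ≤ ((E : ℝ) * b) ^ D * A := le_mul_of_one_le_left (by linarith) hTR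
    linarith
  have hx' : |(x : ℝ)| ≤ (1 + D) * (((E : ℝ) * b) ^ D * A) := by
    refine hx.trans ?_
    apply le_mul_of_one_le_left (by positivity)
    have : (0 : ℝ) ≤ D := by positivity
    linarith
  have hfin : (1 + D) * ((E * b) ^ D * A) ≤ (C * E) ^ C := hCE
  constructor
  · have h1 : (x.natAbs : ℝ) ≤ (((1 + D) * ((E * b) ^ D * A) : ℕ) : ℝ) := by
      rw [Nat.cast_natAbs, Int.cast_abs]; push_cast; exact hx'
    exact (by exact_mod_cast h1 : x.natAbs ≤ (1 + D) * ((E * b) ^ D * A)).trans hfin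
  · have h1 : (y.natAbs : ℝ) ≤ (((1 + D) * ((E * b) ^ D * A) : ℕ) : ℝ) := by
      rw [Nat.cast_natAbs, Int.cast_abs]; push_cast; exact hy
    exact (by exact_mod_cast h1 : y.natAbs ≤ (1 + D) * ((E * b) ^ D * A)).trans hfin

theorem main2 (d : ℕ) : ∃ C : ℕ, ∀ F P N : MvPolynomial (Fin 2) ℤ,
    F.totalDegree ≤ d → P.totalDegree ≤ d → N.totalDegree ≤ d →
    Irreducible (MvPolynomial.map (Int.castRingHom ℚ) F) →
    (∃ a b : ℂ, MvPolynomial.aeval ![a, b] F = 0 ∧ MvPolynomial.aeval ![a, b] P = 0 ∧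
      MvPolynomial.aeval ![a, b] N ≠ 0) →
    ∀ x y k : ℤ, MvPolynomial.eval ![x, y] F = 0 → MvPolynomial.eval ![x, y] P ≠ 0 →
      MvPolynomial.eval ![x, y] N = k * MvPolynomial.eval ![x, y] P →
      x.natAbs ≤ (C * (len F * len P * len N)) ^ C ∧
        y.natAbs ≤ (C * (len F * len P * len N)) ^ C := by
  have h1 : ∀ D : ℕ, ∃ C : ℕ, 1 ≤ D → ∀ F P N : MvPolynomial (Fin 2) ℤ,
      F.totalDegree = D → P.totalDegree ≤ d → N.totalDegree ≤ d →
      Irreducible (MvPolynomial.map (Int.castRingHom ℚ) F) →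
      (∃ a b : ℂ, MvPolynomial.aeval ![a, b] F = 0 ∧ MvPolynomial.aeval ![a, b] P = 0 ∧
        MvPolynomial.aeval ![a, b] N ≠ 0) →
      ∀ x y k : ℤ, MvPolynomial.eval ![x, y] F = 0 → MvPolynomial.eval ![x, y] P ≠ 0 →
        MvPolynomial.eval ![x, y] N = k * MvPolynomial.eval ![x, y] P →
        x.natAbs ≤ (C * (len F * len P * len N)) ^ C ∧
          y.natAbs ≤ (C * (len F * len P * len N)) ^ C := by
    intro D
    by_cases hD : 1 ≤ D
    · obtain ⟨C, hC⟩ := main1 d D hD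
      exact ⟨C, fun _ => hC⟩
    · exact ⟨0, fun h => absurd h hD⟩
  choose C hC using h1
  refine ⟨∑ D ∈ Finset.range (d + 1), C D, ?_⟩
  intro F P N hFd hPd hNd hirr hab x y k hF hP hN
  have hD1 : 1 ≤ F.totalDegree := Pool.Agent.Y910.G.totalDegree_pos F hirr
  have h2 := hC F.totalDegree hD1 F P N rfl hPd hNd hirr hab x y k hF hP hN
  obtain ⟨a, b0, haF, haP, haN⟩ := hab
  have hF0 : F ≠ 0 := by
    rintro rfl
    rw [map_zero] at hirr
    exact hirr.ne_zero rfl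
  have hP0 : P ≠ 0 := by
    rintro rfl
    exact hP (map_zero _)
  have hN0 : N ≠ 0 := by
    rintro rfl
    exact haN (map_zero _)
  have hE1 : 1 ≤ len F * len P * len N :=
    Nat.mul_pos (Nat.mul_pos (len_pos' hF0) (len_pos' hP0)) (len_pos' hN0)
  have h3 : C F.totalDegree ≤ ∑ D ∈ Finset.range (d + 1), C D :=
    Finset.single_le_sum (f := C) (fun _ _ => Nat.zero_le _) (Finset.mem_range.2 (by omega))
  exact ⟨h2.1.trans (pb_mono h3 hE1), h2.2.trans (pb_mono h3 hE1)⟩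

lemma len_C_mul (c : ℤ) (N : MvPolynomial (Fin 2) ℤ) :
    len (MvPolynomial.C c * N) ≤ c.natAbs * len N := by
  rw [len, len, Finset.mul_sum]
  have h1 : (MvPolynomial.C c * N).support ⊆ N.support := by
    intro m hm
    rw [MvPolynomial.mem_support_iff] at hm ⊢
    intro h
    apply hm
    rw [MvPolynomial.coeff_C_mul, h, mul_zero]
  refine (Finset.sum_le_sum_of_subset h1).trans ?_
  apply Finset.sum_le_sum
  intro m _
  rw [MvPolynomial.coeff_C_mul, Int.natAbs_mul]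

theorem main3 : ∃ C : ℕ → ℕ, ∀ (d : ℕ) (F P N : MvPolynomial (Fin 2) ℤ),
    F.totalDegree ≤ d → P.totalDegree ≤ d → N.totalDegree ≤ d →
    Irreducible (MvPolynomial.map (Int.castRingHom ℚ) F) →
    (∃ a b : ℂ, MvPolynomial.aeval ![a, b] F = 0 ∧ MvPolynomial.aeval ![a, b] P = 0 ∧
      MvPolynomial.aeval ![a, b] N ≠ 0) →
    ∀ x y : ℤ, MvPolynomial.eval ![x, y] F = 0 → MvPolynomial.eval ![x, y] P ≠ 0 →
      max x.natAbs y.natAbs ≤ (C d * (len F * len P * len N *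
        ((MvPolynomial.eval ![x, y] N : ℚ) / (MvPolynomial.eval ![x, y] P : ℚ)).den)) ^ C d := by
  choose C hC using main2
  refine ⟨C, ?_⟩
  intro d F P N hFd hPd hNd hirr hab x y hF hP
  obtain ⟨a, b0, haF, haP, haN⟩ := hab
  obtain ⟨q, hq⟩ : ∃ q : ℚ, q = (MvPolynomial.eval ![x, y] N : ℚ) / (MvPolynomial.eval ![x, y] P : ℚ)
    := ⟨_, rfl⟩
  rw [← hq]
  have hPQ : (MvPolynomial.eval ![x, y] P : ℚ) ≠ 0 := by exact_mod_cast hP
  have hq1 : (q.den : ℤ) * MvPolynomial.eval ![x, y] N = q.num * MvPolynomial.eval ![x, y] P := by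
    have h1 : (q.den : ℚ) * (MvPolynomial.eval ![x, y] N : ℚ)
        = q.num * (MvPolynomial.eval ![x, y] P : ℚ) := by
      have h2 : (MvPolynomial.eval ![x, y] N : ℚ) = q * (MvPolynomial.eval ![x, y] P : ℚ) := by
        rw [hq]; field_simp
      rw [h2, ← mul_assoc, mul_comm (q.den : ℚ) q, Rat.mul_den_eq_num]
    exact_mod_cast h1
  have hden : (q.den : ℤ) ≠ 0 := by exact_mod_cast q.den_nz
  have h1 := hC d F P (MvPolynomial.C (q.den : ℤ) * N) hFd hPd (by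
      refine (MvPolynomial.totalDegree_mul _ _).trans ?_
      rw [MvPolynomial.totalDegree_C, zero_add]
      exact hNd) hirr ⟨a, b0, haF, haP, by
        rw [map_mul, MvPolynomial.aeval_C]
        apply mul_ne_zero _ haN
        simp⟩ x y q.num hF hP (by
        rw [map_mul, MvPolynomial.eval_C, hq1])
  have h2 : len F * len P * len (MvPolynomial.C (q.den : ℤ) * N)
      ≤ len F * len P * len N * q.den := by
    rw [mul_assoc (len F * len P)]
    apply Nat.mul_le_mul_left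
    refine (len_C_mul _ _).trans (le_of_eq ?_)
    rw [Int.natAbs_natCast, mul_comm]
  have h3 : (C d * (len F * len P * len (MvPolynomial.C (q.den : ℤ) * N))) ^ C d
      ≤ (C d * (len F * len P * len N * q.den)) ^ C d :=
    Nat.pow_le_pow_left (Nat.mul_le_mul_left _ h2) _
  exact max_le (h1.1.trans h3) (h1.2.trans h3)

end Pool.Agent.V8H28.DV
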