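import Pool.Agent.V8H28.DV.Model
import Pool.Agent.H322R2.Red2

/-!
Passing from a prime of `ℤ[α][z]` to a polynomial in two variables irreducible over `ℚ`.
-/

open Polynomial

set_option autoImplicit false

namespace Pool.Agent.V8H28.DV

open Pool.Agent.H322R2

lemma irr_of_prime (G : ℤ[X][X]) (hG : Prime G) (hd : 1 ≤ G.natDegree) :
    Irreducible (MvPolynomial.map (Int.castRingHom ℚ) ((toB ℤ).symm G)) := by
  obtain ⟨G0, hG0⟩ : ∃ G0, G0 = (toB ℤ).symm G := ⟨_, rfl⟩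
  have hG0p : Prime G0 := by
    rw [hG0]
    exact (MulEquiv.prime_iff ((toB ℤ).symm : ℤ[X][X] ≃* MvPolynomial (Fin 2) ℤ)).2 hG
  rw [← hG0]
  let _ : Algebra (MvPolynomial (Fin 2) ℤ) (MvPolynomial (Fin 2) ℚ) :=
    MvPolynomial.algebraMvPolynomial
  have hloc : IsLocalization ((nonZeroDivisors ℤ).map (MvPolynomial.C (σ := Fin 2)))
      (MvPolynomial (Fin 2) ℚ) := MvPolynomial.isLocalization _ _
  have h1 : (Ideal.span {G0}).IsPrime := (Ideal.span_singleton_prime hG0p.ne_zero).2 hG0p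
  have h2 : Disjoint (((nonZeroDivisors ℤ).map (MvPolynomial.C (σ := Fin 2)) :
      Submonoid (MvPolynomial (Fin 2) ℤ)) : Set (MvPolynomial (Fin 2) ℤ)) (Ideal.span {G0}) := by
    rw [Set.disjoint_left]
    rintro w hw1 hw2
    obtain ⟨n, hn, rfl⟩ := hw1
    have hn0 : (n : ℤ) ≠ 0 := nonZeroDivisors.ne_zero hn
    have h3 : G0 ∣ MvPolynomial.C n := Ideal.mem_span_singleton.1 hw2
    have h4 := _root_.map_dvd (toB ℤ) h3
    rw [hG0, AlgEquiv.apply_symm_apply, toB_C] at h4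
    have h5 := natDegree_le_of_dvd h4 (by simpa using hn0)
    rw [natDegree_C] at h5
    omega
  have h3 := IsLocalization.isPrime_of_isPrime_disjoint _ (MvPolynomial (Fin 2) ℚ) _ h1 h2
  have h4 : algebraMap (MvPolynomial (Fin 2) ℤ) (MvPolynomial (Fin 2) ℚ)
      = MvPolynomial.map (Int.castRingHom ℚ) := rfl
  rw [Ideal.map_span, Set.image_singleton, h4] at h3
  have h5 : MvPolynomial.map (Int.castRingHom ℚ) G0 ≠ 0 := by
    intro h
    apply hG0p.ne_zero
    exact MvPolynomial.map_injective _ (RingHom.injective_int _) (by rw [h, map_zero])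
  exact ((Ideal.span_singleton_prime h5).1 h3).irreducible

lemma eval_symm (G : ℤ[X][X]) (a k : ℤ) :
    MvPolynomial.eval ![k, a] ((toB ℤ).symm G) = ev a k G := by
  have h1 := ev_toB (S := ℤ) k a ((toB ℤ).symm G)
  rw [AlgEquiv.apply_symm_apply] at h1
  rw [h1, MvPolynomial.eval, MvPolynomial.coe_eval₂Hom]
  congr 1

lemma coeff_symm (G : ℤ[X][X]) (m : Fin 2 →₀ ℕ) :
    ((toB ℤ).symm G).coeff m = (G.coeff (m 0)).coeff (m 1) := by
  have h1 := coeff_toB ℤ ((toB ℤ).symm G) m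
  rw [AlgEquiv.apply_symm_apply] at h1
  exact h1.symm

lemma len_symm (G : ℤ[X][X]) : (len ((toB ℤ).symm G) : ℝ) ≤ pn (pn zn) G := by
  rw [len, pn_apply, Nat.cast_sum]
  obtain ⟨s, hs⟩ : ∃ s, s = ((toB ℤ).symm G).support := ⟨_, rfl⟩
  rw [← hs]
  have h1 : ∀ m ∈ s, ((((toB ℤ).symm G).coeff m).natAbs : ℝ)
      = zn ((G.coeff (m 0)).coeff (m 1)) := by
    intro m _
    rw [coeff_symm, zn_apply, Nat.cast_natAbs, Int.cast_abs]
  rw [Finset.sum_congr rfl h1]
  have h2 : ∑ i ∈ G.support, pn zn (G.coeff i)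
      = ∑ x ∈ G.support.sigma (fun i => (G.coeff i).support), zn ((G.coeff x.1).coeff x.2) := by
    rw [Finset.sum_sigma]
    apply Finset.sum_congr rfl
    intro i _
    rw [pn_apply]
  rw [h2]
  have hinj : Set.InjOn (fun m : Fin 2 →₀ ℕ => (⟨m 0, m 1⟩ : Σ _ : ℕ, ℕ)) (s : Set _) := by
    intro m _ m' _ h
    simp only [Sigma.mk.injEq, heq_eq_eq] at h
    ext i
    fin_cases i
    · exact h.1
    · exact h.2
  rw [← Finset.sum_image (s := s) (g := fun m : Fin 2 →₀ ℕ => (⟨m 0, m 1⟩ : Σ _ : ℕ, ℕ))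
    (f := fun x => zn ((G.coeff x.1).coeff x.2)) hinj]
  apply Finset.sum_le_sum_of_subset_of_nonneg
  · intro x hx
    rw [Finset.mem_image] at hx
    obtain ⟨m, hm, rfl⟩ := hx
    rw [hs, MvPolynomial.mem_support_iff, coeff_symm] at hm
    rw [Finset.mem_sigma, mem_support_iff, mem_support_iff]
    refine ⟨?_, hm⟩
    intro h
    rw [h, coeff_zero] at hm
    exact hm rfl
  · intro _ _ _
    exact apply_nonneg _ _

lemma totalDegree_symm (G : ℤ[X][X]) (e D : ℕ) (he : G.natDegree ≤ e)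
    (hD : ∀ j, (G.coeff j).natDegree ≤ D) : ((toB ℤ).symm G).totalDegree ≤ e + D := by
  rw [MvPolynomial.totalDegree]
  apply Finset.sup_le
  intro m hm
  rw [MvPolynomial.mem_support_iff, coeff_symm] at hm
  have h1 : m 0 ≤ G.natDegree := by
    by_contra h
    rw [coeff_eq_zero_of_natDegree_lt (show G.natDegree < m 0 by omega), coeff_zero] at hm
    exact hm rfl
  have h2 : m 1 ≤ (G.coeff (m 0)).natDegree := by
    by_contra h
    rw [coeff_eq_zero_of_natDegree_lt (show (G.coeff (m 0)).natDegree < m 1 by omega)] at hm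
    exact hm rfl
  have h3 : (m.sum fun _ e => e) = m 0 + m 1 := by
    rw [← degree_fin2]; rfl
  have h4 := hD (m 0)
  omega

/-- `W(α, x)` as a polynomial in `β = c x`, multiplied by `c ^ d` -/
noncomputable def tl (c : ℤ) (d : ℕ) (W : ℤ[X][X]) : ℤ[X][X] :=
  ∑ j ∈ Finset.range (d + 1), monomial j (C (c ^ (d - j)) * W.coeff j)

lemma coeff_tl (c : ℤ) (d : ℕ) (W : ℤ[X][X]) (j : ℕ) :
    (tl c d W).coeff j = if j ≤ d then C (c ^ (d - j)) * W.coeff j else 0 := by
  rw [tl, finsetSum_coeff]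
  simp only [coeff_monomial]
  by_cases hj : j ≤ d
  · rw [if_pos hj, Finset.sum_ite_eq' (Finset.range (d + 1)) j,
      if_pos (Finset.mem_range.2 (by omega))]
  · rw [if_neg hj]
    apply Finset.sum_eq_zero
    intro i hi
    rw [Finset.mem_range] at hi
    rw [if_neg (by omega)]

lemma natDegree_tl (c : ℤ) (d : ℕ) (W : ℤ[X][X]) : (tl c d W).natDegree ≤ d := by
  rw [natDegree_le_iff_coeff_eq_zero]
  intro n hn
  rw [coeff_tl, if_neg (by omega)]

lemma inner_tl (c : ℤ) (d m : ℕ) (W : ℤ[X][X]) (hW : ∀ j, (W.coeff j).natDegree ≤ m) (j : ℕ) :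
    ((tl c d W).coeff j).natDegree ≤ m := by
  rw [coeff_tl]
  split_ifs
  · exact (natDegree_C_mul_le _ _).trans (hW j)
  · simp

lemma ev_tl {S : Type*} [CommRing S] (c : ℤ) (d : ℕ) (W : ℤ[X][X]) (hW : W.natDegree ≤ d)
    (a x : S) : ev a ((c : S) * x) (tl c d W) = (c : S) ^ d * ev a x W := by
  rw [ev_apply, eval₂_eq_sum_range' _ (n := d + 1) (by
    have := natDegree_tl c d W; omega), ev_apply, eval₂_eq_sum_range' _ (n := d + 1) (by omega),
    Finset.mul_sum]
  apply Finset.sum_congr rfl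
  intro j hj
  rw [Finset.mem_range] at hj
  rw [coeff_tl, if_pos (by omega), map_mul, evf_C, mul_pow]
  have h1 : (c : S) ^ d = (c : S) ^ (d - j) * (c : S) ^ j := by
    rw [← pow_add]
    congr 1; omega
  rw [h1]
  push_cast
  ring

lemma pn_tl (c : ℤ) (d : ℕ) (W : ℤ[X][X]) (B : ℝ) (hB1 : 1 ≤ B) (hcB : |(c : ℝ)| ≤ B) :
    pn (pn zn) (tl c d W) ≤ B ^ d * pn (pn zn) W := by
  rw [pn_eq_range (pn zn) (tl c d W) (n := max (d + 1) (W.natDegree + 1)) (by
    have := natDegree_tl c d W; omega),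
    pn_eq_range (pn zn) W (n := max (d + 1) (W.natDegree + 1)) (by omega), Finset.mul_sum]
  apply Finset.sum_le_sum
  intro j _
  rw [coeff_tl]
  have h2 : 0 ≤ pn zn (W.coeff j) := apply_nonneg _ _
  split_ifs with hj
  · refine (map_mul_le_mul _ _ _).trans ?_
    rw [pn_C, zn_apply]
    apply mul_le_mul_of_nonneg_right _ h2
    push_cast
    rw [abs_pow]
    calc |(c : ℝ)| ^ (d - j) ≤ B ^ (d - j) := pow_le_pow_left₀ (abs_nonneg _) hcB _
      _ ≤ B ^ d := pow_le_pow_right₀ hB1 (by omega)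
  · rw [map_zero]
    positivity

end Pool.Agent.V8H28.DV
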