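import Mathlib
import Pool.Agent.H322R2.Norms
import Pool.Agent.Y910.F.F6
import Pool.Agent.Y910.F.F2

/-!
The size of a factor of an integer polynomial in two variables (Kronecker substitution).
-/

open Polynomial

set_option autoImplicit false

namespace Pool.Agent.V8H28.DV

open Pool.Agent.H322R2

/-- Kronecker substitution `outer variable = X ^ (D + 1)` -/
noncomputable def kr (D : ℕ) : ℤ[X][X] →+* ℤ[X] := eval₂RingHom (RingHom.id ℤ[X]) (X ^ (D + 1))

lemma kr_apply (D : ℕ) (G : ℤ[X][X]) :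
    kr D G = ∑ j ∈ Finset.range (G.natDegree + 1), G.coeff j * X ^ ((D + 1) * j) := by
  rw [kr, coe_eval₂RingHom, eval₂_eq_sum_range]
  simp [pow_mul]

lemma coeff_kr (D : ℕ) (G : ℤ[X][X]) (hG : ∀ j, (G.coeff j).natDegree ≤ D) (i j : ℕ)
    (hi : i ≤ D) : (kr D G).coeff (i + (D + 1) * j) = (G.coeff j).coeff i := by
  rw [kr_apply, finsetSum_coeff]
  by_cases hj : j ≤ G.natDegree
  · rw [Finset.sum_eq_single j]
    · rw [coeff_mul_X_pow]
    · intro l _ hl
      rw [coeff_mul_X_pow']
      split_ifs with h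
      · rcases lt_or_gt_of_ne hl with h1 | h1
        · apply coeff_eq_zero_of_natDegree_lt
          have h2 := hG l
          obtain ⟨k, rfl⟩ : ∃ k, j = l + 1 + k := ⟨j - (l + 1), by omega⟩
          have h3 : (D + 1) * (l + 1 + k) = (D + 1) * l + (D + 1) + (D + 1) * k := by ring
          omega
        · exfalso
          obtain ⟨k, rfl⟩ : ∃ k, l = j + 1 + k := ⟨l - (j + 1), by omega⟩
          have h3 : (D + 1) * (j + 1 + k) = (D + 1) * j + (D + 1) + (D + 1) * k := by ring
          omega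
      · rfl
    · intro h
      exact absurd (Finset.mem_range.2 (by omega)) h
  · rw [coeff_eq_zero_of_natDegree_lt (by omega : G.natDegree < j), coeff_zero]
    apply Finset.sum_eq_zero
    intro l hl
    rw [Finset.mem_range] at hl
    rw [coeff_mul_X_pow']
    split_ifs with h
    · apply coeff_eq_zero_of_natDegree_lt
      have h2 := hG l
      obtain ⟨k, rfl⟩ : ∃ k, j = l + 1 + k := ⟨j - (l + 1), by omega⟩
      have h3 : (D + 1) * (l + 1 + k) = (D + 1) * l + (D + 1) + (D + 1) * k := by ring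
      omega
    · rfl

lemma natDegree_kr (D e : ℕ) (G : ℤ[X][X]) (hG : ∀ j, (G.coeff j).natDegree ≤ D)
    (he : G.natDegree ≤ e) : (kr D G).natDegree ≤ (D + 1) * (e + 1) := by
  rw [kr_apply]
  apply natDegree_sum_le_of_forall_le
  intro j hj
  rw [Finset.mem_range] at hj
  refine natDegree_mul_le.trans ?_
  rw [natDegree_X_pow]
  have h1 := hG j
  have h2 : (D + 1) * j ≤ (D + 1) * e := Nat.mul_le_mul_left _ (by omega)
  have h3 : (D + 1) * (e + 1) = (D + 1) * e + (D + 1) := by ring
  omega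

lemma pn_kr (D : ℕ) (G : ℤ[X][X]) : pn zn (kr D G) ≤ pn (pn zn) G := by
  rw [kr_apply]
  refine (seminorm_sum_le (pn zn) _ _).trans ?_
  rw [pn_eq_range (pn zn) G (n := G.natDegree + 1) (Nat.lt_succ_self _)]
  apply Finset.sum_le_sum
  intro j _
  refine (map_mul_le_mul (pn zn) _ _).trans ?_
  have h1 : pn zn ((X : ℤ[X]) ^ ((D + 1) * j)) ≤ 1 := by
    rw [← monomial_one_right_eq_X_pow, pn_monomial, zn_apply]
    simp
  have h2 : 0 ≤ pn zn (G.coeff j) := apply_nonneg _ _
  nlinarith

lemma kr_ne_zero (D : ℕ) (G : ℤ[X][X]) (hG : ∀ j, (G.coeff j).natDegree ≤ D) (h0 : G ≠ 0) :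
    kr D G ≠ 0 := by
  intro h
  apply h0
  ext j i
  rw [coeff_zero, coeff_zero]
  by_cases hi : i ≤ D
  · rw [← coeff_kr D G hG i j hi, h, coeff_zero]
  · exact coeff_eq_zero_of_natDegree_lt (by have := hG j; omega)

lemma coeff_swap (p : ℤ[X][X]) (i j : ℕ) :
    ((Bivariate.swap (R := ℤ) p).coeff i).coeff j = (p.coeff j).coeff i := by
  induction p using Polynomial.induction_on' with
  | add p q hp hq => simp only [map_add, coeff_add, hp, hq]
  | monomial n a =>
    induction a using Polynomial.induction_on' with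
    | add p q hp hq => simp only [map_add, coeff_add, hp, hq]
    | monomial m a =>
      rw [Bivariate.swap_monomial_monomial]
      simp only [coeff_monomial]
      split_ifs <;> simp_all [coeff_monomial]

/-- degrees in the inner variable of a factor -/
lemma inner_deg {D : ℕ} {V G : ℤ[X][X]} (hV0 : V ≠ 0) (hV : ∀ j, (V.coeff j).natDegree ≤ D)
    (hG : G ∣ V) (j : ℕ) : (G.coeff j).natDegree ≤ D := by
  have hs : Bivariate.swap (R := ℤ) V ≠ 0 := by
    intro h
    apply hV0
    exact (map_eq_zero_iff _ (Bivariate.swap (R := ℤ)).injective).1 h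
  have h1 : (Bivariate.swap (R := ℤ) V).natDegree ≤ D := by
    rw [natDegree_le_iff_coeff_eq_zero]
    intro n hn
    ext i
    rw [coeff_swap, coeff_zero]
    exact coeff_eq_zero_of_natDegree_lt (by have := hV i; omega)
  have h2 : (Bivariate.swap (R := ℤ) G).natDegree ≤ D :=
    (natDegree_le_of_dvd (_root_.map_dvd (Bivariate.swap (R := ℤ)) hG) hs).trans h1
  rw [natDegree_le_iff_coeff_eq_zero]
  intro n hn
  have h3 : (Bivariate.swap (R := ℤ) G).coeff n = 0 :=
    coeff_eq_zero_of_natDegree_lt (by omega)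
  rw [← coeff_swap, h3, coeff_zero]

/-- the size of a factor -/
theorem factor_le (D e : ℕ) (V G : ℤ[X][X]) (hV0 : V ≠ 0) (he : V.natDegree ≤ e)
    (hV : ∀ j, (V.coeff j).natDegree ≤ D) (H : ℕ) (hH : pn (pn zn) V ≤ H) (hG : G ∣ V) :
    G.natDegree ≤ e ∧ (∀ j, (G.coeff j).natDegree ≤ D) ∧
      pn (pn zn) G ≤ (((e + 1) * ((D + 1) *
        (2 ^ ((D + 1) * (e + 1)) * (((D + 1) * (e + 1) + 1) * H))) : ℕ) : ℝ) := by
  have h1 : G.natDegree ≤ e := (natDegree_le_of_dvd hG hV0).trans he
  have h2 := inner_deg hV0 hV hG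
  refine ⟨h1, h2, ?_⟩
  have hk0 := kr_ne_zero D V hV hV0
  have hkd := natDegree_kr D e V hV he
  have hkc : ∀ i, |(kr D V).coeff i| ≤ (H : ℤ) := by
    intro i
    have h3 := (coeff_le_pn zn (kr D V) i).trans ((pn_kr D V).trans hH)
    rw [zn_apply] at h3
    exact_mod_cast h3
  have h3 : ∀ i j, |(((G.coeff j).coeff i : ℤ) : ℝ)| ≤
      ((2 ^ ((D + 1) * (e + 1)) * (((D + 1) * (e + 1) + 1) * H) : ℕ) : ℝ) := by
    intro i j
    by_cases hi : i ≤ D
    · rw [← coeff_kr D G h2 i j hi]
      have h4 := Y910.F.factor_bound (kr D V).natDegree H (kr D V) (kr D G) rfl hk0 hkc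
        (_root_.map_dvd (kr D) hG) (i + (D + 1) * j)
      have h5 : ((2 ^ (kr D V).natDegree * (((kr D V).natDegree + 1) * H) : ℕ) : ℤ)
          ≤ ((2 ^ ((D + 1) * (e + 1)) * (((D + 1) * (e + 1) + 1) * H) : ℕ) : ℤ) := by
        have h6 : 2 ^ (kr D V).natDegree * (((kr D V).natDegree + 1) * H)
            ≤ 2 ^ ((D + 1) * (e + 1)) * (((D + 1) * (e + 1) + 1) * H) := by
          apply Nat.mul_le_mul (Nat.pow_le_pow_right (by norm_num) hkd)
          exact Nat.mul_le_mul_right _ (by omega)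
        exact_mod_cast h6
      have h7 := h4.trans h5
      exact_mod_cast h7
    · rw [coeff_eq_zero_of_natDegree_lt (by have := h2 j; omega), Int.cast_zero, abs_zero]
      positivity
  refine (Y910.F.pn_le G e D h1 h2 _ h3).trans (le_of_eq ?_)
  push_cast
  ring

end Pool.Agent.V8H28.DV
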