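import Pool.Agent.V8H28.DV.Kron

/-!
The equation of the image of a plane curve under `(α, β) ↦ (α, N / P)`.
-/

open Polynomial

set_option autoImplicit false

namespace Pool.Agent.V8H28.DV

open Pool.Agent.H322R2

section NrmMap

variable {R S : Type*} [CommRing R] [CommRing S] (f : R →+* S)

lemma comp_map (F : R[X]) (d : ℕ) : (H322R2.comp F d).map f = H322R2.comp (F.map f) d := by
  ext i j
  simp only [Matrix.map_apply, H322R2.comp, Matrix.of_apply]
  split_ifs <;> simp

lemma aeval_comp_map (F : R[X]) (d : ℕ) (V : R[X]) :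
    (aeval (H322R2.comp F d) V).map f = aeval (H322R2.comp (F.map f) d) (V.map f) := by
  induction V using Polynomial.induction_on' with
  | add p q hp hq =>
    rw [map_add, Polynomial.map_add, map_add, ← hp, ← hq]
    ext i j
    simp
  | monomial n a =>
    rw [map_monomial, aeval_monomial, aeval_monomial, ← comp_map]
    have h1 : ((algebraMap R (Matrix (Fin d) (Fin d) R)) a).map f
        = algebraMap S (Matrix (Fin d) (Fin d) S) (f a) := by
      ext i j
      simp only [Matrix.map_apply, Matrix.algebraMap_matrix_apply]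
      split_ifs <;> simp
    rw [← h1, Matrix.map_mul]
    congr 1
    exact map_pow (RingHom.mapMatrix f) (H322R2.comp F d) n

lemma nrm_map (F : R[X]) (d : ℕ) (V : R[X]) :
    f (nrm F d V) = nrm (F.map f) d (V.map f) := by
  rw [nrm, nrm, RingHom.map_det, ← aeval_comp_map]
  rfl

end NrmMap

lemma pn_map_C {A : Type*} [CommRing A] (M : RingSeminorm A) (W : A[X]) :
    pn (pn M) (W.map (C : A →+* A[X])) = pn M W := by
  rw [pn_eq_range (pn M) _ (n := W.natDegree + 1) (by
    exact lt_of_le_of_lt (natDegree_map_le) (Nat.lt_succ_self _)),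
    pn_eq_range M W (n := W.natDegree + 1) (Nat.lt_succ_self _)]
  apply Finset.sum_congr rfl
  intro i _
  rw [coeff_map, pn_C]

/-- homogenization of `G` in the outer variable, evaluated at `(N, P)` -/
noncomputable def hz (G N P : ℤ[X][X]) : ℤ[X][X] :=
  ∑ j ∈ Finset.range (G.natDegree + 1), C (G.coeff j) * N ^ j * P ^ (G.natDegree - j)

lemma map_hz {S : Type*} [CommRing S] (G N P : ℤ[X][X]) (f : ℤ[X][X] →+* S) :
    f (hz G N P) = ∑ j ∈ Finset.range (G.natDegree + 1),
      f (C (G.coeff j)) * f N ^ j * f P ^ (G.natDegree - j) := by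
  rw [hz, map_sum]
  apply Finset.sum_congr rfl
  intro j _
  rw [map_mul, map_mul, map_pow, map_pow]

lemma hz_eval {S : Type*} [CommRing S] (G N P : ℤ[X][X]) (f : ℤ[X][X] →+* S) (z : S)
    (hz1 : f N = z * f P) :
    f (hz G N P) = f P ^ G.natDegree * eval₂ (f.comp C) z G := by
  rw [map_hz, eval₂_eq_sum_range, Finset.mul_sum]
  apply Finset.sum_congr rfl
  intro j hj
  rw [Finset.mem_range] at hj
  have h1 : G.natDegree = (G.natDegree - j) + j := by omega
  rw [hz1]
  conv_rhs => rw [h1, pow_add]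
  rw [RingHom.comp_apply, mul_pow]
  have h2 : G.natDegree - j + j - j = G.natDegree - j := by omega
  ring

/-- the minimal equation of `N / P` over `ℤ[α]` on the curve `GM = 0` -/
theorem model (GM P N : ℤ[X][X]) (D D1 K m H1 H2 : ℕ) (hm : GM.Monic) (hD : GM.natDegree = D)
    (hD1 : 1 ≤ D) (hp : Prime GM) (hGd : ∀ j, (GM.coeff j).natDegree ≤ D1)
    (hPK : P.natDegree ≤ K) (hNK : N.natDegree ≤ K) (hPm : ∀ j, (P.coeff j).natDegree ≤ m)
    (hNm : ∀ j, (N.coeff j).natDegree ≤ m) (hH1 : pn (pn zn) GM ≤ H1)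
    (hP2 : pn (pn zn) P ≤ H2) (hN2 : pn (pn zn) N ≤ H2) (hGP : ¬ GM ∣ P)
    (a0 b0 : ℂ) (h0 : ev a0 b0 GM = 0) (hP0 : ev a0 b0 P = 0) (hN0 : ev a0 b0 N ≠ 0) :
    ∃ G : ℤ[X][X], Prime G ∧ 1 ≤ G.natDegree ∧ G.natDegree ≤ D ∧
      1 ≤ G.leadingCoeff.natDegree ∧ (∀ j, (G.coeff j).natDegree ≤ D * (m + D1 * K)) ∧
      pn (pn zn) G ≤ (((D + 1) * ((D * (m + D1 * K) + 1) *
        (2 ^ ((D * (m + D1 * K) + 1) * (D + 1)) * (((D * (m + D1 * K) + 1) * (D + 1) + 1) *
          (D.factorial * (2 * H2 * (1 + H1) ^ K) ^ D)))) : ℕ) : ℝ) ∧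
      ∀ a b k : ℤ, ev a b GM = 0 → ev a b P ≠ 0 → ev a b N = k * ev a b P → ev a k G = 0 := by
  have hD0 : 0 < D := hD1
  obtain ⟨F', hF'⟩ : ∃ F' : ℤ[X][X][X], F' = GM.map C := ⟨_, rfl⟩
  obtain ⟨V, hV⟩ : ∃ V : ℤ[X][X][X], V = C X * P.map C - N.map C := ⟨_, rfl⟩
  have hF'm : F'.Monic := by rw [hF']; exact hm.map _
  have hF'd : F'.natDegree = D := by rw [hF', hm.natDegree_map, hD]
  obtain ⟨Χ, hΧ⟩ : ∃ Χ : ℤ[X][X], Χ = nrm F' D V := ⟨_, rfl⟩
  -- the function field
  have hdom : IsDomain (AdjoinRoot GM) := AdjoinRoot.isDomain_of_prime hp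
  let L := FractionRing (AdjoinRoot GM)
  obtain ⟨ψ, hψ⟩ : ∃ ψ : ℤ[X][X] →+* L, ∀ W, ψ W = 0 ↔ GM ∣ W := by
    refine ⟨(algebraMap (AdjoinRoot GM) L).comp (AdjoinRoot.mk GM), fun W => ?_⟩
    rw [RingHom.comp_apply, IsFractionRing.to_map_eq_zero_iff, AdjoinRoot.mk_eq_zero]
  have hψe : ∀ W, ψ W = eval₂ (ψ.comp C) (ψ X) W := by
    intro W
    have h1 : ψ = eval₂RingHom (ψ.comp C) (ψ X) := by
      apply Polynomial.ringHom_ext
      · intro a
        rw [coe_eval₂RingHom, eval₂_C]
        rfl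
      · rw [coe_eval₂RingHom, eval₂_X]
    exact congrArg (fun g : ℤ[X][X] →+* L => g W) h1
  have hψP : ψ P ≠ 0 := by rwa [Ne, hψ]
  have hzP : ψ N = (ψ N / ψ P) * ψ P := (div_mul_cancel₀ _ hψP).symm
  obtain ⟨z, hz'⟩ : ∃ z, z = ψ N / ψ P := ⟨_, rfl⟩
  rw [← hz'] at hzP
  obtain ⟨f, hf⟩ : ∃ f : ℤ[X][X] →+* L, f = eval₂RingHom (ψ.comp C) z := ⟨_, rfl⟩
  have hfC : f.comp C = ψ.comp C := by
    refine RingHom.ext fun a => ?_
    simp [hf]
  have hfX : f X = z := by simp [hf]
  have hmapC : ∀ W : ℤ[X][X], eval₂ f (ψ X) (W.map C) = ψ W := by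
    intro W
    rw [eval₂_map, hfC, ← hψe]
  have hfΧ : f Χ = 0 := by
    have h1 := dvd_nrm f (ψ X) F' D hD0 hF'm hF'd (by
      rw [hF', hmapC, hψ]) V
    have h2 : eval₂ f (ψ X) V = 0 := by
      rw [hV, eval₂_sub, eval₂_mul, eval₂_C, hmapC, hmapC, hfX, hzP, sub_self]
    rw [h2, zero_dvd_iff] at h1
    rw [hΧ]; exact h1
  -- `Χ` is nonzero
  have hGN : ¬ GM ∣ N := by
    rintro ⟨W, hW⟩
    apply hN0
    rw [hW, map_mul, h0, zero_mul]
  have hΧ0 : Χ ≠ 0 := by
    intro h
    have h1 := nrm_map (evalRingHom (0 : ℤ[X])) F' D V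
    rw [← hΧ, h, map_zero] at h1
    have h2 : F'.map (evalRingHom (0 : ℤ[X])) = GM := by
      rw [hF', Polynomial.map_map]
      have : (evalRingHom (0 : ℤ[X])).comp C = RingHom.id _ := by
        refine RingHom.ext fun a => ?_
        simp
      rw [this, Polynomial.map_id]
    have h3 : V.map (evalRingHom (0 : ℤ[X])) = - N := by
      rw [hV, Polynomial.map_sub, Polynomial.map_mul, Polynomial.map_map, Polynomial.map_map,
        map_C]
      have : (evalRingHom (0 : ℤ[X])).comp C = RingHom.id _ := by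
        refine RingHom.ext fun a => ?_
        simp
      rw [this, Polynomial.map_id, Polynomial.map_id]
      simp
    rw [h2, h3] at h1
    exact nrm_ne_zero GM D hm hD hp (-N) (by rwa [dvd_neg]) h1.symm
  -- the prime factor
  obtain ⟨G, hGpr, hGΧ, hfG⟩ : ∃ G, Prime G ∧ G ∣ Χ ∧ f G = 0 := by
    obtain ⟨w, hw⟩ := UniqueFactorizationMonoid.factors_prod hΧ0
    rw [← hw, map_mul] at hfΧ
    have h1 : f (UniqueFactorizationMonoid.factors Χ).prod = 0 := by
      rcases mul_eq_zero.1 hfΧ with h | h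
      · exact h
      · exact absurd h ((w.isUnit.map f).ne_zero)
    rw [map_multiset_prod, Multiset.prod_eq_zero_iff, Multiset.mem_map] at h1
    obtain ⟨G, hG, hG0⟩ := h1
    exact ⟨G, UniqueFactorizationMonoid.prime_of_factor G hG,
      UniqueFactorizationMonoid.dvd_of_mem_factors hG, hG0⟩
  have hfG' : eval₂ (ψ.comp C) z G = 0 := by
    rw [← hfG, hf]; rfl
  -- the identity
  have hdiv : GM ∣ hz G N P := by
    rw [← hψ, hz_eval G N P ψ z hzP, hfG', mul_zero]
  have hpt : ∀ {S : Type} [CommRing S] (a b : S), ev a b GM = 0 → ev a b (hz G N P) = 0 := by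
    intro S _ a b hab
    obtain ⟨W, hW⟩ := hdiv
    rw [hW, map_mul, hab, zero_mul]
  have hG0 : G ≠ 0 := hGpr.ne_zero
  have hnd : 1 ≤ G.natDegree := by
    by_contra hcon
    have h1 : G.natDegree = 0 := by omega
    have h2 : hz G N P = C (G.coeff 0) := by
      rw [hz, h1]
      simp
    rw [h2] at hdiv
    have h3 : C (G.coeff 0) ≠ (0 : ℤ[X][X]) := by
      intro h
      apply hG0
      rw [eq_C_of_natDegree_eq_zero h1, h]
    have h4 := natDegree_le_of_dvd hdiv h3
    rw [natDegree_C, hD] at h4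
    omega
  have hlead : 1 ≤ G.leadingCoeff.natDegree := by
    by_contra hcon
    have h1 : G.leadingCoeff.natDegree = 0 := by omega
    have h2 := hpt a0 b0 h0
    rw [map_hz, hP0, Finset.sum_range_succ, Nat.sub_self, pow_zero, mul_one] at h2
    rw [Finset.sum_eq_zero (fun j hj => by
      rw [Finset.mem_range] at hj
      rw [zero_pow (by omega), mul_zero]), zero_add] at h2
    rcases mul_eq_zero.1 h2 with h3 | h3
    · have h4 : G.coeff G.natDegree = C (G.leadingCoeff.coeff 0) := by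
        rw [coeff_natDegree]
        exact eq_C_of_natDegree_eq_zero h1
      rw [h4, ev_C, evf_C] at h3
      have h5 : G.leadingCoeff.coeff 0 = 0 := by exact_mod_cast h3
      rw [h5, C_0] at h4
      rw [coeff_natDegree] at h4
      exact hG0 (leadingCoeff_eq_zero.1 h4)
    · exact hN0 (pow_eq_zero_iff (by omega) |>.1 h3)
  -- degrees
  have hVK : V.natDegree ≤ K := by
    rw [hV]
    refine (natDegree_sub_le _ _).trans (max_le ?_ ?_)
    · refine (natDegree_C_mul_le _ _).trans ?_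
      exact natDegree_map_le.trans hPK
    · exact natDegree_map_le.trans hNK
  have hVc : ∀ j, V.coeff j = X * C (P.coeff j) - C (N.coeff j) := by
    intro j
    rw [hV, coeff_sub, coeff_C_mul, coeff_map, coeff_map]
  have hΧd : Χ.natDegree ≤ D := by
    have h1 : ∀ i j, ((aeval (H322R2.comp F' D) V) i j).natDegree ≤ 1 := by
      intro i j
      have h2 := natDegree_aeval_comp F' D 0 (fun j => by
        rw [hF', coeff_map, natDegree_C]) V K 1 hVK (fun q => by
        rw [hVc]
        refine (natDegree_sub_le _ _).trans (max_le ?_ ?_)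
        · refine natDegree_mul_le.trans ?_
          rw [natDegree_C, natDegree_X]
        · rw [natDegree_C]; omega) i j
      simpa using h2
    have h3 := natDegree_det_le _ 1 h1
    rw [hΧ, nrm]
    simpa using h3
  have hΧi : ∀ j, (Χ.coeff j).natDegree ≤ D * (m + D1 * K) := by
    have h1 : (Bivariate.swap (R := ℤ) Χ).natDegree ≤ D * (m + D1 * K) := by
      have h2 := nrm_map ((Bivariate.swap (R := ℤ) : ℤ[X][X] ≃ₐ[ℤ] ℤ[X][X]) : ℤ[X][X] →+* ℤ[X][X])
        F' D V
      have h3 : ((Bivariate.swap (R := ℤ) : ℤ[X][X] ≃ₐ[ℤ] ℤ[X][X]) : ℤ[X][X] →+* ℤ[X][X]) Χ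
        = Bivariate.swap (R := ℤ) Χ := rfl
      rw [← hΧ, h3] at h2
      rw [h2, nrm]
      have hsC : ∀ p : ℤ[X], (Bivariate.swap (R := ℤ) (C p)).natDegree ≤ p.natDegree := by
        intro p
        rw [natDegree_le_iff_coeff_eq_zero]
        intro n hn
        ext i
        rw [coeff_swap, coeff_zero]
        rw [coeff_C]
        split_ifs
        · exact coeff_eq_zero_of_natDegree_lt hn
        · simp
      apply natDegree_det_le
      intro i j
      apply natDegree_aeval_comp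
      · intro j
        rw [coeff_map, hF', coeff_map]
        exact (hsC _).trans (hGd j)
      · exact natDegree_map_le.trans hVK
      · intro q
        rw [coeff_map, hVc]
        have h4 : ((Bivariate.swap (R := ℤ) : ℤ[X][X] ≃ₐ[ℤ] ℤ[X][X]) : ℤ[X][X] →+* ℤ[X][X])
            (X * C (P.coeff q) - C (N.coeff q)) = C X * Bivariate.swap (R := ℤ) (C (P.coeff q))
              - Bivariate.swap (R := ℤ) (C (N.coeff q)) := by
          show Bivariate.swap (R := ℤ) (X * C (P.coeff q) - C (N.coeff q)) = _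
          rw [map_sub, map_mul, Bivariate.swap_Y]
        rw [h4]
        refine (natDegree_sub_le _ _).trans (max_le ?_ ?_)
        · refine (natDegree_C_mul_le _ _).trans ((hsC _).trans (hPm q))
        · exact (hsC _).trans (hNm q)
    intro j
    rw [natDegree_le_iff_coeff_eq_zero]
    intro n hn
    have h5 : (Bivariate.swap (R := ℤ) Χ).coeff n = 0 :=
      coeff_eq_zero_of_natDegree_lt (by omega)
    rw [← coeff_swap, h5, coeff_zero]
  have hΧn : pn (pn zn) Χ ≤ ((D.factorial * (2 * H2 * (1 + H1) ^ K) ^ D : ℕ) : ℝ) := by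
    have h1 := nrm_le (pn (pn zn)) pn2_one F' D V K hVK
    rw [← hΧ] at h1
    refine h1.trans ?_
    push_cast
    apply mul_le_mul_of_nonneg_left _ (by positivity)
    apply pow_le_pow_left₀ (mul_nonneg (apply_nonneg _ _) (by
      have := apply_nonneg (pn (pn (pn zn))) F'
      positivity))
    have h2 : pn (pn (pn zn)) V ≤ 2 * H2 := by
      rw [hV]
      refine (map_sub_le_add _ _ _).trans ?_
      have h3 : pn (pn (pn zn)) (C X * P.map C) ≤ H2 := by
        refine (map_mul_le_mul _ _ _).trans ?_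
        rw [pn_C, pn_X, pn_map_C]
        have h4 : pn zn (1 : ℤ[X]) ≤ 1 := pnz_one
        have h5 : 0 ≤ pn (pn zn) P := apply_nonneg _ _
        nlinarith
      have h6 : pn (pn (pn zn)) (N.map C) ≤ H2 := by
        rw [pn_map_C]; exact hN2
      linarith
    have h7 : pn (pn (pn zn)) F' ≤ H1 := by
      rw [hF', pn_map_C]; exact hH1
    have h8 : 0 ≤ pn (pn (pn zn)) F' := apply_nonneg _ _
    apply mul_le_mul h2 (pow_le_pow_left₀ (by linarith) (by linarith) _) (by positivity)
      (by positivity)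
  obtain ⟨hf1, hf2, hf3⟩ := factor_le (D * (m + D1 * K)) D Χ G hΧ0 hΧd hΧi _ hΧn hGΧ
  refine ⟨G, hGpr, hnd, hf1, hlead, hf2, ?_, ?_⟩
  · refine hf3.trans (le_of_eq ?_)
    push_cast
    ring
  · intro a b k hab hPab hNab
    have h1 := hpt a b hab
    rw [hz_eval G N P (ev a b) k hNab] at h1
    have h2 : (ev a b).comp C = evf a := by
      refine RingHom.ext fun p => ?_
      simp
    rw [h2] at h1
    rcases mul_eq_zero.1 h1 with h3 | h3
    · exact absurd (pow_eq_zero_iff (by omega) |>.1 h3) hPab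
    · exact h3

end Pool.Agent.V8H28.DV
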